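import Pool.Agent.H343.QF.StS
import Pool.Graph.R_pool_sql_team_39128cda.H.MP_c33acd_lc.F

set_option autoImplicit false
set_option linter.unusedSectionVars false

/-! # MP_9a852a_al, statements, part L : logic

The library files `Pool/Graph/R_pool_sql_team_39128cda/H/MP_c33acd_lc/{D,E,F,I}.lean` (quasi-finite
axiomatizability of free solvable groups) are the model and are used as follows.  `Ar α P`: the
relation `P` on `α → ℕ` is arithmetical; `NT α f`: the graph of the term `f` is arithmetical
(file `D`).  `LS`: a language with a binary symbol which is interpreted by the multiplication in all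
groups; `Rl X φ K w`: truth of `φ` in `K`; `MD X C α β P`: there is one formula which defines the
predicate `P K a r v n` in all triples `(K, a, r)` satisfying the condition `C`; the variables are `a`,
`r`, the elements `v i`, `i : α`, and the elements `r ^ n j`, `j : β`; `MT` is the same for terms (file
`E`).  In our application `r` is the first generator (called `a` in the other files) and `a` is the
second generator (called `b` in the other files). -/

namespace Pool.Agent.H343.QF

open Pool.Agent.H.MP_c33acd_lc FirstOrder FirstOrder.Language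

/-- the language of groups -/
def XL : LS where
  L := GrL
  str := fun K _ => gstr K
  m := GFun.mul
  hm := fun _ _ _ => rfl

section defs

variable {K : Type} [Group K]

/-- the centralizer of `r` -/
def CmR (r y : K) : Prop := y * r = r * y

/-- the definition of the squares -/
def SqR (B : ℕ) (b r x z : K) : Prop := CmR r x ∧ CmR r z ∧ ∃ p, CmR r p ∧ Sd B b x z p = 1

/-- the natural numbers -/
def NmR (B : ℕ) (b r x : K) : Prop := ∃ z, SqR B b r x z

/-- multiplication: `(x + y)^2 = x^2 + y^2 + 2 z` -/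
def MuR (B : ℕ) (b r x y z : K) : Prop := ∃ s s₁ s₂, SqR B b r (x * y) s ∧ SqR B b r x s₁ ∧
  SqR B b r y s₂ ∧ s = s₁ * s₂ * z * z

/-- the ordering -/
def LeR (B : ℕ) (b r x y : K) : Prop := ∃ t, NmR B b r t ∧ x * t = y

/-- standard pairs `(b, r)`: the centralizer of `r` is the infinite cyclic group of the powers of `r`
and `SqR` defines the squares of the natural numbers -/
structure StdR (B : ℕ) (b r : K) : Prop where
  cm : ∀ y, CmR r y ↔ ∃ e : ℤ, y = r ^ e
  inj : ∀ e : ℤ, r ^ e = 1 → e = 0
  sq : ∀ i j : ℤ, SqR B b r (r ^ i) (r ^ j) ↔ ∃ t : ℕ, i = t ∧ j = (t : ℤ) ^ 2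

/-- the axioms; `L g x` is a relation -/
structure AxR (B : ℕ) (b r : K) (L : K → K → Prop) : Prop where
  ab : ∀ x y, CmR r x → CmR r y → x * y = y * x
  n1 : NmR B b r 1
  nr : NmR B b r r
  nmul : ∀ x y, NmR B b r x → NmR B b r y → NmR B b r (x * y)
  tot : ∀ x, CmR r x → NmR B b r x ∨ NmR B b r x⁻¹
  pos : ∀ x, NmR B b r x → NmR B b r x⁻¹ → x = 1
  r1 : ¬ r = 1
  disc : ∀ x, NmR B b r x → x = 1 ∨ NmR B b r (x * r⁻¹)
  fn : ∀ x z z', SqR B b r x z → SqR B b r x z' → z = z'
  sq0 : SqR B b r 1 1
  sqs : ∀ x z, SqR B b r x z → SqR B b r (x * r) (z * x * x * r)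
  mu1 : ∀ x, NmR B b r x → MuR B b r x 1 1
  mus : ∀ x y z, NmR B b r x → NmR B b r y → NmR B b r z → MuR B b r x y z →
    MuR B b r x (y * r) (z * x)
  big : ∀ x, NmR B b r x → ∃ z, NmR B b r z ∧ ∀ y u, NmR B b r y → NmR B b r u →
    LeR B b r y x → MuR B b r x y u → LeR B b r u z
  l1 : ∀ g, ∃ x, NmR B b r x ∧ L g x
  l2 : ∀ g h x y, NmR B b r x → NmR B b r y → L g x → L h y → L (g * h) (x * y)
  l3 : ∀ g x, NmR B b r x → L g x → L g⁻¹ x
  l4 : ∀ g x y, NmR B b r x → NmR B b r y → L g x → L g (x * y)
  l5 : ∀ x, NmR B b r x → ∃ g, ¬ L g x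

end defs

/-- the condition on the frames -/
def CR (B : ℕ) : Cn := fun _ _ a r => StdR B a r

/-- the code of the product of the `i`-th element and the letter `σ` -/
def cdR (B : ℕ) (σ i : ℕ) : ℕ := eeB B (2 * (4 * i + σ) + 1)

/-- the group -/
abbrev GG (B : ℕ) : Type := F2 ⧸ KI B (eeB B)

/-- the generators of the group -/
abbrev ga (B : ℕ) : GG B := (xa : F2 ⧸ KI B (eeB B))

/-- the generators of the group -/
abbrev gb (B : ℕ) : GG B := (xb : F2 ⧸ KI B (eeB B))

/-- equality of the enumerated elements -/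
def EqG (B i j : ℕ) : Prop := Wd B (ga B) (gb B) i = Wd B (ga B) (gb B) j

/-- `g` is represented by a word of length at most `n` -/
def LleG (B : ℕ) (g : GG B) (n : ℕ) : Prop :=
  ∃ l : List (Fin 2 × Bool), l.length ≤ n ∧ ((FreeGroup.mk l : F2) : GG B) = g

/-- the description of the multiplication table -/
structure RestR (B : ℕ) {K : Type} [Group K] (b r : K) : Prop where
  sur : ∀ g : K, ∃ k : ℕ, g = Wd B r b k
  eq : ∀ i j : ℕ, Wd B r b i = Wd B r b j ↔ EqG B i j
  cod : ∀ (σ : Fin 4) (i : ℕ), Wd B r b i * ltr r b σ = Wd B r b (cdR B σ i)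

/-- L1 (frames).  As `MD.exN`, `MD.ar` in file `E`, with `NmR`, `MuR` in place of `Num`, `Mu`.
`CmR`, `SqR`, `NmR`, `MuR`, `LeR` are definable (`MD.eq`, `MD.ex`, `MT.mul`; `blk c p n` by induction on
`n`).  In a standard pair `NmR x ↔ ∃ n : ℕ, x = r ^ n` and
`MuR (r^x) (r^y) (r^z) ↔ x y = z`. -/
def S_frame : Prop := ∀ (B : ℕ) {X : LS} {α β : Type},
  (∀ {Q : (β → ℕ) → Prop}, Ar β Q → MD X (CR B) α β fun _ _ _ _ _ n => Q n) ∧
  (∀ {P : ∀ (K : Type) [Group K], K → K → ℕ → (α → K) → (β → ℕ) → Prop},
    MD X (CR B) α (Option β) (fun K _ a r v m => P K a r (m none) v fun j => m (some j)) →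
    MD X (CR B) α β fun K _ a r v n => ∃ x, P K a r x v n)

/-- L2 (recursively enumerable relations are arithmetical).  Either by the DPRM theorem of the library
(`Pool/Graph/R_seed8/Helper844/DPRM.lean`) or directly: the graph of every `Nat.Partrec` function is
arithmetical, by induction, with `Ar.tc` (transitive closure), `NT.div`, `NT.mod`, `NT.beta` of
file `D`. -/
def S_rear : Prop := ∀ R : ℕ → Prop, REPred R → Ar Unit (fun v => R (v ()))

/-- L3 (the word problem is recursively enumerable).  `mk l ∈ KI` iff there is a list of triples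
`(u, m, ε)` such that `mk l` is the product of the words `u (rel m)^ε u⁻¹` (`eeB B` is primitive recursive,
the word of `rel m` is a computable list, equality in the free group is decided by
`FreeGroup.reduce`, or is itself enumerated by elementary reductions). -/
def S_wp : Prop := ∀ B : ℕ, REPred fun l : List (Fin 2 × Bool) => (FreeGroup.mk l : F2) ∈ KI B (eeB B)

/-- L4, from L3: the words `Wd` are computable lists. -/
def S_re : Prop := ∀ B : ℕ, (REPred fun n : ℕ => EqG B n.unpair.1 n.unpair.2) ∧
  (REPred fun n : ℕ => LleG B (Wd B (ga B) (gb B) n.unpair.1) n.unpair.2) ∧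
  ∀ σ : ℕ, REPred fun n : ℕ => n.unpair.2 = cdR B σ n.unpair.1

/-- L5 (finitely generated models of the axioms are standard).

Proof.  Write `N`, `≤` for `NmR`, `LeR`.  By `ab`, `tot`, `pos`, `nmul`, `≤` is a linear ordering of `N`
(elements of `N` commute with `r`).  *Claim: every `x ∈ N` is a power of `r`.*  Suppose `x ∈ N` is not;
then `r^k ≤ x` for all `k : ℕ` (`disc`).  Let `g_1, …, g_s` generate `K`, `c_i` with `L g_i c_i`
(`l1`), `c` the product of the `c_i` (`l4`: `L g_i c`).  There is `z ∈ N` with `c^k ≤ z` for all `k`: if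
`c` is a power of `r` take `z = x`; otherwise `z` is given by `big` for `c`: by `mu1`, `mus` and
induction `MuR c (r^k) (c^k)`, and `r^k ≤ c`.  By `l2`, `l3` the elements `g` with `L g (c^k)` for some
`k` form a subgroup (`l1`, `l4` for `1`), which is `K`.  So `L g z` for all `g` (`l4`), in contradiction
to `l5`.  By `tot` the centralizer of `r` is `<r>`; `r` has infinite order by `pos`, `nr`, `nmul`, `r1`.
`sq`: by induction `SqR (r^t) (r^(t^2))` (`sq0`, `sqs`), `fn` gives uniqueness, and for `i < 0`
`SqR (r^i) _` would give `r^i ∈ N`, in contradiction to `pos`. -/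
def S_axstd : Prop := ∀ (B : ℕ) {K : Type} [Group K], Group.FG K → ∀ (b r : K) (L : K → K → Prop),
  AxR B b r L → StdR B b r

/-- L6 (reconstruction of the group).  `f : GG → K`, `f (Wd i) = Wd i` is well defined and injective
by `eq` (the elements `Wd B ga gb i` exhaust `GG B`: they are closed under right multiplication by the
four letters by the odd relators, and contain `b^B = Wd 0`), surjective by `sur`;
`f (g s) = f g * s` for the four letters `s` by `cod` (which also holds in `GG B`), so
`f (g w) = f g * w(r, b)` for all words `w`; `f (b^B) = b^B`, so `f 1 = 1` and `f` is a homomorphism. -/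
def S_iso : Prop := ∀ (B : ℕ) {K : Type} [Group K] (b r : K), RestR B b r → Nonempty (K ≃* GG B)

/-- L7 (the axioms hold in the group).  `hL`: the relation `L g (r^n)` is `LleG B g n`.  Balls of the
word metric are finite and the group is infinite (`l5`).  `RestR`: see L6. -/
def S_axG : Prop := ∀ B : ℕ, 1 ≤ B →
  (∀ g : GG B, g * ga B = ga B * g → g ∈ Subgroup.zpowers (ga B)) →
  (∀ k : ℤ, ga B ^ k = 1 → k = 0) →
  (∀ i j k : ℤ, Sd B (gb B) (ga B ^ i) (ga B ^ j) (ga B ^ k) = 1 →
    ∃ t : ℕ, i = t ∧ j = (t : ℤ) ^ 2) →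
  StdR B (gb B) (ga B) ∧ RestR B (gb B) (ga B) ∧
    ∀ L : GG B → GG B → Prop, (∀ g (n : ℕ), L g (ga B ^ n) ↔ LleG B g n) → AxR B (gb B) (ga B) L

/-- L8 (the axioms are expressible; `ψ` is the formula of the relation `L`).  `MD X CT` without
conditions on the frame; `MD X (CR B)` with the natural numbers of L1, L2, L4
(`NT` of `cdR`, `Ar` of `EqG`). -/
def S_md : Prop := ∀ (B : ℕ) (X : LS),
  (∀ ψ : X.L.Formula (Bool ⊕ Unit ⊕ Unit), MD X CT Empty Empty fun K _ a r _ _ =>
    AxR B a r fun g x => Rl X ψ K (Sum.elim (fun c => cond c a r)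
      (Sum.elim (fun _ => g) fun _ => x))) ∧
  MD X (CR B) Empty Empty (fun _ _ a r _ _ => RestR B a r) ∧
  MD X (CR B) Unit Unit fun _ _ a r v n => ∃ k : ℕ, v () = Wd B r a k ∧
    LleG B (Wd B (ga B) (gb B) k) (n ())

/-- L9 (assembly), as `qfa` in file `I`: the sentence says that there are `b`, `r` with the axioms
`AxR` (with `ψ` the formula of the third part of L8) and `RestR`. -/
def S_l9 : Prop := S_axstd → S_iso → S_axG → S_md → S_qfa

end Pool.Agent.H343.QF
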