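import Pool.Agent.H343.QF.AsmG
import Pool.Agent.H343.QF.StL
import Pool.Agent.H343.AN.AsmA
import Pool.Agent.H603.QF.R1
import Pool.Agent.H767.QF.R2
import Pool.Agent.H726.QF.R3
import Pool.Agent.H549.QF.R4
import Pool.Agent.H106.QF.R5
import Pool.Agent.H967.QF.R6
import Pool.Agent.H94.QF.Q12
import Pool.Agent.H196.QF.Q3
import Pool.Agent.H216.QF.Q4
import Pool.Agent.H415.QF.Q5
import Pool.Agent.H284.QF.Q6
import Pool.Agent.H157.QF.Q7
import Pool.Agent.H52.QF.Q9
import Pool.Agent.H670.QF.Q10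
import Pool.Agent.H638.QF.Q11
import Pool.Agent.H384.QF.S1
import Pool.Agent.H658.QF.S2
import Pool.Agent.H719.QF.S3
import Pool.Agent.H597.QF.S4
import Pool.Agent.H728.QF.S5
import Pool.Agent.H286.QF.S6
import Pool.Agent.H331.QF.S7
import Pool.Agent.H772.QF.L1
import Pool.Agent.H972.QF.L2
import Pool.Agent.H922.QF.L3
import Pool.Agent.H695.QF.L4
import Pool.Agent.H722.QF.L5
import Pool.Agent.H21.QF.L6
import Pool.Agent.H196.QF.L7
import Pool.Agent.H636.QF.L8
import Pool.Agent.H274.QF.L9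

/-!
# Assembly of the quasi-finitely axiomatizable lacunary hyperbolic group
-/

namespace Pool.Agent.H343.QF

theorem t_step : S_step := by
  have near : Pool.Agent.H343.AN.S_near := Pool.Agent.H343.AN.t_near
  have behr : Pool.Agent.H343.AN.S_behr := Pool.Agent.H343.AN.t_behr
  have order : Pool.Agent.H343.AN.S_order := Pool.Agent.H343.AN.t_order
  have odist : Pool.Agent.H343.AN.S_odist := Pool.Agent.H343.AN.t_odist
  have rcor : S_rcor := Pool.Agent.H603.QF.rcor
  have rsmall : S_rsmall := Pool.Agent.H767.QF.rsmall toolG rcor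
  have rdist : S_rdist := Pool.Agent.H726.QF.rdist toolG rcor
  have norm : S_norm := Pool.Agent.H549.QF.norm
  have windgen : S_windgen := Pool.Agent.H106.QF.windgen behr
  have sp : S_sp := Pool.Agent.H967.QF.sp toolG rcor rsmall rdist windgen
  have q1 : S_q1 := Pool.Agent.H94.QF.q1
  have q2 : S_q2 := Pool.Agent.H94.QF.q2 near
  have q3 : S_q3 := Pool.Agent.H196.QF.q3
  have q4 : S_q4 := Pool.Agent.H216.QF.q4 q1
  have q8 : S_q8 := Pool.Agent.H216.QF.q8 q1
  have q5 : S_q5 := Pool.Agent.H415.QF.q5 q1 order odist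
  have q6 : S_q6 := Pool.Agent.H284.QF.q6 q1 q2
  have q7 : S_q7 := Pool.Agent.H157.QF7.q7 near q1 q2 q3 q6
  have q9 : S_q9 := Pool.Agent.H52.QF.q9 q3 q4 q5 q6 q7 q8
  have q10 : S_q10 := Pool.Agent.H670.QF.q10 toolG rcor rdist sp q1
  exact @Pool.Agent.H638.QF.Q11.step toolG rcor rdist norm sp q4 q9 q10

theorem t_lim : S_lim := by
  have base : S_base := Pool.Agent.H384.QF.S1.base
  have form : S_form := Pool.Agent.H658.QF.form
  have tr : S_tr := Pool.Agent.H719.QF.tr
  have iter : S_iter := Pool.Agent.H597.QF.iter toolG t_step form tr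
  exact Pool.Agent.H728.QF.lim toolG base iter

theorem t_lac : S_lac := Pool.Agent.H331.QF.lac Pool.Agent.H286.QF.cone

theorem t_qfa : S_qfa := by
  have fr : S_frame := Pool.Agent.H772.QF.frame
  have rear : S_rear := Pool.Agent.H972.QF.L2.rear
  have wp : S_wp := Pool.Agent.H922.QF.wp
  have re : S_re := Pool.Agent.H695.QF.L4.re wp
  have axstd : S_axstd := Pool.Agent.H722.QF.axstd
  have iso : S_iso := Pool.Agent.H21.QF.iso
  have axG : S_axG := Pool.Agent.H196.QF.axG
  have md : S_md := Pool.Agent.H636.QF.md fr rear re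
  exact Pool.Agent.H274.QF.l9 axstd iso axG md

theorem main : S_final := final t_lim t_lac t_qfa

end Pool.Agent.H343.QF
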