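import Pool.Agent.H343.QF.StG
import Pool.Agent.H972.QF.G1
import Pool.Agent.H972.QF.G34
import Pool.Agent.H358.QF.G2
import Pool.Agent.H358.QF.G5
import Pool.Agent.H358.QF.G6
import Pool.Agent.H665.QF.G7
import Pool.Agent.H30.QF.G8
import Pool.Agent.H30.QF.G9
import Pool.Agent.H157.QF.G10
import Pool.Agent.H967.QF.G11
import Pool.Agent.H384.QF.G12
import Pool.Agent.H388.QF.G13
import Pool.Agent.H653.QF.G14
import Pool.Agent.H120.QF.G15
import Pool.Agent.H295.QF.G16
import Pool.Agent.H30.QF.G17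

/-!
# The toolbox of corner paths
-/

namespace Pool.Agent.H343.QF

theorem toolG : ToolG := by
  have lnproj : S_lnproj := Pool.Agent.H358.QF.lnproj
  have malpair : S_malpair := Pool.Agent.H972.QF.malpair
  have malalg : S_malalg := Pool.Agent.H972.QF.malalg
  have cor1 : S_cor1 := Pool.Agent.H358.QF.cor1 Pool.Agent.H972.QF.bg1
    (Pool.Agent.H358.QF.lc lnproj malpair)
  have cor2 : S_cor2 := Pool.Agent.H665.QF.G7.cor2 cor1
  have dl : S_dl := Pool.Agent.H30.QF.G8.dl cor1 cor2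
  have adj : S_adj := Pool.Agent.H30.QF.G9.adj cor1 cor2
  have m1 : S_m1 := Pool.Agent.H157.QF.m1 lnproj cor1 cor2
  have m2 : S_m2 := Pool.Agent.H967.QF.m2 lnproj malpair cor1 cor2
  have ma : S_ma := Pool.Agent.H384.QF.G12.ma m1 m2
  have cproj : S_cproj := Pool.Agent.H388.QF.G13.cproj cor1 cor2
  have mb : S_mb := Pool.Agent.H653.QF.mb cproj ma
  have mc : S_mc := Pool.Agent.H120.QF.mc lnproj m1 cor2
  have run : S_run := Pool.Agent.H295.QF.run dl adj
  exact ⟨lnproj, malpair, malalg, cor1, cor2, dl, adj, m1, m2, ma, cproj, mb, mc, run,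
    Pool.Agent.H30.QF.G17.algp malalg, Pool.Agent.H30.QF.G17.algm, Pool.Agent.H30.QF.G17.algk⟩

end Pool.Agent.H343.QF
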