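import Pool.Agent.H343.AN.Defs

set_option autoImplicit false
set_option linter.unusedSectionVars false

/-! # MP_9a852a_al : a torsion free lacunary hyperbolic QFA group.  Definitions.

The group is the quotient of the free group on `a`, `b` by the relators `rel B ee a b m`, `m : ℕ`. -/

namespace Pool.Agent.H343.QF

open Pool.Agent.TH68 Pool.Agent.Helper97.Hyp Pool.Agent.H343.AN

section words

variable {G : Type} [Group G]

/-- the product of the blocks `p ^ k * c`, `1 ≤ k ≤ n` -/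
def blk (c p : G) : ℕ → G
  | 0 => 1
  | n + 1 => blk c p n * (p ^ (n + 1) * c)

/-- the word which enumerates the elements of the group -/
def Wd (B : ℕ) (a b : G) (k : ℕ) : G := blk b (a ^ k) B

/-- the word which defines the squares -/
def Sd (B : ℕ) (b x z p : G) : G := x * b ^ 3 * z * b ^ 3 * blk (b ^ 2) p B

/-- the four letters -/
def ltr (a b : G) (k : ℕ) : G :=
  if k % 4 = 0 then a else if k % 4 = 1 then a⁻¹ else if k % 4 = 2 then b else b⁻¹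

/-- the relators -/
def rel (B : ℕ) (ee : ℕ → ℕ) (a b : G) (m : ℕ) : G :=
  if m % 2 = 0 then Sd B b (a ^ (m / 2)) (a ^ ((m / 2) ^ 2)) (a ^ ee m)
  else Wd B a b (ee m) * (Wd B a b (m / 2 / 4) * ltr a b (m / 2))⁻¹

end words

section good

variable {Γ : Type} [Group Γ]

/-- the coset of `u` modulo the powers of `a`, as a set of points -/
def Ln (W : WNorm Γ) (a u : Γ) : Set (Pt W) := {x | ∃ k : ℤ, x = pt W (u * a ^ k)}

/-- the class of groups used in the construction, with the constants -/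
structure Good (W : WNorm Γ) (a b : Γ) (δ D : ℝ) : Prop where
  hyp : GHyp (Pt W) δ
  one : 1 ≤ δ
  le : δ ≤ D
  gen : ∀ g, W.ℓ g = 1 → g = a ∨ g = a⁻¹ ∨ g = b ∨ g = b⁻¹
  pow : ∀ k : ℤ, (W.ℓ (a ^ k) : ℤ) = |k|
  lb : W.ℓ b = 1
  tf : ∀ (g : Γ) (n : ℕ), 0 < n → g ^ n = 1 → g = 1
  mal : ∀ u, u ∉ Subgroup.zpowers a → ∀ p ∈ Ln W a u, ∀ q ∈ Ln W a u, pd (Ln W a 1) p q ≤ D
  dc : ∀ i j k l : ℤ, |i| ≤ 3 → |j| ≤ 3 → i ≠ j → b ^ i ≠ a ^ k * b ^ j * a ^ l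

/-- corner paths: `X (j+1)` is reached from `X j` by a long power of `a` and a short connector -/
structure Cor (W : WNorm Γ) (a : Γ) (X : ℤ → Γ) (lam : ℤ → ℕ) (s : ℤ → Γ) (E Λ : ℕ) (R : ℝ) :
    Prop where
  step : ∀ j, X (j + 1) = X j * a ^ lam j * s j
  lo : ∀ j, E ≤ lam j
  hi : ∀ j, lam j ≤ Λ
  short : ∀ j, (W.ℓ (s j) : ℝ) ≤ R
  nm : ∀ j, s j ∉ Subgroup.zpowers a

/-- the set of the corners -/
def SX (W : WNorm Γ) (X : ℤ → Γ) : Set (Pt W) := Set.range fun j => pt W (X j)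

/-- the lengths of the blocks of a relator -/
def lamt (E l0 : ℕ) (t : ℕ) : ℕ := if t = 0 then l0 else (t + 1) * E

/-- partial products of a relator -/
def Qp (a c : Γ) (E l0 : ℕ) : ℕ → Γ
  | 0 => 1
  | t + 1 => Qp a c E l0 t * a ^ lamt E l0 t * c

/-- the relator with the blocks `0, …, n`; the connectors are `b ^ κ`, the last one is `g` -/
def rho (a b : Γ) (n E l0 κ : ℕ) (g : Γ) : Γ :=
  Qp a (b ^ κ) E l0 n * a ^ lamt E l0 n * g

/-- the corners of the axis of the relator -/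
def Xr (a b : Γ) (n E l0 κ : ℕ) (g : Γ) (j : ℤ) : Γ :=
  rho a b n E l0 κ g ^ (j / ((n : ℤ) + 1)) * Qp a (b ^ κ) E l0 (j % ((n : ℤ) + 1)).toNat

/-- the lengths of the blocks along the axis -/
def lamr (n E l0 : ℕ) (j : ℤ) : ℕ := lamt E l0 (j % ((n : ℤ) + 1)).toNat

/-- the connectors along the axis -/
def sr (b : Γ) (n κ : ℕ) (g : Γ) (j : ℤ) : Γ := if j % ((n : ℤ) + 1) = n then g else b ^ κ

/-- the bound of the lengths of the blocks -/
def LL (n E : ℕ) : ℕ := 3 * (n + 1) * E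

/-- the perimeter -/
def P0 (n E l0 : ℕ) : ℕ := ∑ t ∈ Finset.range (n + 1), lamt E l0 t

/-- the data of a normalised relator -/
structure BD (W : WNorm Γ) (a : Γ) (D R : ℝ) (n E l0 κ : ℕ) (g : Γ) : Prop where
  hn : 10 ^ 13 ≤ n
  hκ : κ = 1 ∨ κ = 2
  lo : E ≤ l0
  hi : l0 ≤ 3 * (n + 1) * E
  hg : g ∉ Subgroup.zpowers a
  hgR : (W.ℓ g : ℝ) ≤ R
  hR : 2 ≤ R
  hE : 10 ^ 7 * n * (D + R) ≤ E

end good

/-- a system of axes with rotations -/
structure Sp {Γ : Type} [Group Γ] {W : WNorm Γ} {𝒜 : Type} [MulAction Γ 𝒜] (Y : Sys Γ W 𝒜) where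
  ρ : ℝ
  N : Subgroup Γ
  normal : N.Normal
  G : 𝒜 → Subgroup Γ
  G_le : ∀ A, G A ≤ N
  fix : ∀ A, ∀ r ∈ G A, r • A = A
  far : ∀ A, ∀ r ∈ G A, r ≠ 1 → ∀ q ∈ Y.S A, ρ ≤ dist q (r • q)
  cob : ∀ A, ∀ p ∈ Y.S A, ∀ q ∈ Y.S A, ∃ r ∈ G A, dist p (r • q) ≤ ρ / 2 + Y.θ
  wind : ∀ n ∈ N, n ≠ 1 → ∀ x : Pt W,
    ∃ A, ∃ r ∈ G A, r ≠ 1 ∧ pd (Y.S A) (r • x) (n • x) ≤ 50 * Y.θ

attribute [instance] Sp.normal

end Pool.Agent.H343.QF
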