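import Mathlib

set_option autoImplicit false

/-! # MP_9a852a_al : definitions of the final statement -/

namespace Pool.Agent.H343.QF

open Set Filter Topology FirstOrder

/-- the function symbols of the language of groups -/
inductive GFun : ℕ → Type
  | one : GFun 0
  | inv : GFun 1
  | mul : GFun 2

/-- the language of groups: identity, inverse, multiplication -/
abbrev GrL : FirstOrder.Language.{0, 0} := ⟨GFun, fun _ => Empty⟩

/-- a group as a structure in the language of groups -/
instance gstr (G : Type) [Group G] : GrL.Structure G where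
  funMap := fun f v => match f, v with
    | .one, _ => 1
    | .inv, v => (v 0)⁻¹
    | .mul, v => v 0 * v 1
  RelMap := fun r _ => r.elim

/-- quasi-finitely axiomatizable groups: some first-order sentence `σ` holds in `G`, and every finitely
generated group satisfying `σ` is isomorphic to `G` -/
def QFA (G : Type) [Group G] : Prop :=
  ∃ σ : GrL.Sentence, G ⊨ σ ∧ ∀ (H : Type) [Group H], Group.FG H → H ⊨ σ → Nonempty (H ≃* G)

/-- word length with respect to `S` -/
noncomputable def wlen {G : Type} [Group G] (S : Set G) (g : G) : ℕ :=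
  sInf {n | ∃ l : List G, l.length = n ∧ (∀ x ∈ l, x ∈ S ∨ x⁻¹ ∈ S) ∧ l.prod = g}

/-- the sequences at bounded rescaled distance from the identity -/
def Adm {G : Type} [Group G] (S : Set G) (d : ℕ → ℝ) : Type :=
  {x : ℕ → G // ∃ C : ℝ, ∀ n, (wlen S (x n) : ℝ) ≤ C * d n}

/-- the metric space `T` is the asymptotic cone of `G` (word metric of `S`) for the ultrafilter `ω` and
the scaling sequence `d`: its points are represented by the admissible sequences, and the distance of
the points represented by `x` and `y` is `lim_ω |x_n⁻¹ y_n| / d_n` -/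
def IsCone {G : Type} [Group G] (S : Set G) (ω : Ultrafilter ℕ) (d : ℕ → ℝ) (T : Type)
    [MetricSpace T] : Prop :=
  ∃ π : Adm S d → T, Function.Surjective π ∧ ∀ x y : Adm S d,
    Tendsto (fun n => (wlen S ((x.1 n)⁻¹ * y.1 n) : ℝ) / d n) (ω : Filter ℕ) (𝓝 (dist (π x) (π y)))

/-- `S` is an arc with end points `x`, `y`: the image of an embedding of the interval -/
def IsArc {T : Type} [TopologicalSpace T] (x y : T) (S : Set T) : Prop :=
  ∃ φ : unitInterval → T, Continuous φ ∧ Function.Injective φ ∧ φ 0 = x ∧ φ 1 = y ∧ range φ = S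

/-- `T` is an `ℝ`-tree: any two distinct points `x`, `y` are joined by a unique arc, and this arc
is isometric to the interval `[0, d(x, y)]` -/
def IsRTree (T : Type) [MetricSpace T] : Prop :=
  ∀ x y : T, x ≠ y → ∃ S : Set T, IsArc x y S ∧ (∀ S', IsArc x y S' → S' = S) ∧
    ∃ ψ : Icc (0 : ℝ) (dist x y) → T, Isometry ψ ∧ range ψ = S

/-- lacunary hyperbolic groups: finitely generated, and some asymptotic cone is an `ℝ`-tree -/
def LacHyp (G : Type) [Group G] : Prop :=
  ∃ S : Set G, S.Finite ∧ Subgroup.closure S = ⊤ ∧ ∃ ω : Ultrafilter ℕ, (ω : Filter ℕ) ≤ cofinite ∧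
    ∃ d : ℕ → ℝ, (∀ n, 0 < d n) ∧ Tendsto d atTop atTop ∧
      ∃ (T : Type) (_ : MetricSpace T), IsCone S ω d T ∧ IsRTree T

end Pool.Agent.H343.QF
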