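import Pool.Agent.H343.QF.Defs

set_option autoImplicit false
set_option linter.unusedSectionVars false

/-! # MP_9a852a_al, statements, part G : corner paths in a hyperbolic group.

Tools: `Helper97/Hyp/Basic.lean` (`GHyp`, `IsProj`, `pd`, `le_pd_of_proj`, `pd_le_of_proj`,
`far_of_proj`, `far_of_pd`, `dist_le_of_proj`, `proj_dist_le`, `pd_tri`, `pd_symm`, `pd_smul`,
`pd_le_dist`, `le_pd`), `TH68/Tool.lean` (`exc`, `exc_split`, `exc_move`, `order_close`, `bg`,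
`near_geod`), `TH68/Defs.lean` (`exists_between`, `dist_def`).
`U` always stands for `D + R`. -/

namespace Pool.Agent.H343.QF

open Pool.Agent.TH68 Pool.Agent.Helper97.Hyp Pool.Agent.H343.AN

/-- G1 (broken geodesics, finite sequences; only the interior segments have to be long).
Proof: as `bg`, `bg_one`, `bg_two` in `TH68/Tool.lean`.  With `exc (Z 0) (Z (i+2)) (Z (i+1)) ≤ κ + 2δ`
by induction on `i` (`exc_split`), the symmetric statement, and `exc_split` once more. -/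
def S_bg1 : Prop := ∀ {X : Type} [PseudoMetricSpace X] {δ κ : ℝ} (Z : ℕ → X) (n : ℕ), GHyp X δ →
  0 ≤ κ → (∀ i, i + 2 ≤ n → exc (Z i) (Z (i + 2)) (Z (i + 1)) ≤ κ) →
  (∀ i, i + 3 ≤ n → κ + 4 * δ < dist (Z (i + 1)) (Z (i + 2))) →
  ∀ i ≤ n, exc (Z 0) (Z n) (Z i) ≤ κ + 4 * δ

/-- G2 (projections on the lines `v <a>`).  The line is geodesic: `dist (v a^i) (v a^j) = |i - j|`
by `Good.pow`.  Let `q = v a^i` be a nearest point of the line (distances are natural numbers), and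
`y = v a^j`, say `j > i`.  With `m = min (j - i) (⌊2δ⌋ + 1)` and `X = v a^(i+m)`: `dist x q ≤ dist x X`,
and `exc_split` (or `GHyp`) for `x, y, X` and `q` gives `exc x y q ≤ 6 δ`. -/
def S_lnproj : Prop := ∀ {Γ : Type} [Group Γ] {W : WNorm Γ} {a b : Γ} {δ D : ℝ},
  Good W a b δ D → ∀ (v : Γ) (x : Pt W), ∃ q, IsProj (6 * δ) (Ln W a v) x q

/-- G3 (`mal` for all pairs of lines): translate by `v⁻¹` (`pd_smul`). -/
def S_malpair : Prop := ∀ {Γ : Type} [Group Γ] {W : WNorm Γ} {a b : Γ} {δ D : ℝ},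
  Good W a b δ D → ∀ (u v : Γ), v⁻¹ * u ∉ Subgroup.zpowers a → ∀ (i j : ℤ),
  pd (Ln W a v) (pt W (u * a ^ i)) (pt W (u * a ^ j)) ≤ D

/-- G4 (malnormality).  If `u⁻¹ a^k u = a^l`, `k ≠ 0`, then `u a^(l n) = a^(k n) u` is at distance
`|u|` from `a^(k n)`, so the projection distance of the points `u`, `u a^(l n)` of `u <a>` is at least
`|k n| - 2 |u| - 1`, which is unbounded, in contradiction to `mal`. -/
def S_malalg : Prop := ∀ {Γ : Type} [Group Γ] {W : WNorm Γ} {a b : Γ} {δ D : ℝ},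
  Good W a b δ D → ∀ u, u ∉ Subgroup.zpowers a → ∀ k : ℤ, k ≠ 0 →
  u⁻¹ * a ^ k * u ∉ Subgroup.zpowers a

/-- G5 (small angles at the corners).  Put `Y = X j a^(lam j)`, `X (j+1) = Y s_j`, `z = X (j+1) a^t`
a point of the line `A' = X (j+1) <a>`, `z' = X j a^t'` a point of the line `A = X j <a>`.  `A ≠ A'` by
`nm`.  The projection (G2) of `X (j+1)` on `A` is at distance `≤ 2R + 6δ` from `Y`, and by G3 the
projection `π'` of `z` on `A` is at distance `≤ 2R + D + 12δ` from `Y`.  So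
`dist z z' ≥ dist z π' + dist π' z' - 6δ ≥ dist z Y + dist Y z' - 2 (2R + D + 12δ) - 6δ`, i.e.
`exc z' z Y ≤ 32D + 4R`.  Now move `Y` to `X (j+1)` and (in the second case) `z = X (j+1) a^(lam (j+1))`
to `X (j+2)` (`exc_move`, `exc_move_right`). -/
def S_lc : Prop := ∀ {Γ : Type} [Group Γ] {W : WNorm Γ} {a b : Γ} {δ D R : ℝ},
  Good W a b δ D → ∀ {X : ℤ → Γ} {lam : ℤ → ℕ} {s : ℤ → Γ} {E Λ : ℕ}, Cor W a X lam s E Λ R → 0 ≤ R →
  ∀ (j t : ℤ), exc (pt W (X j)) (pt W (X (j + 1) * a ^ t)) (pt W (X (j + 1))) ≤ 50 * (D + R) ∧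
    exc (pt W (X j * a ^ t)) (pt W (X (j + 2))) (pt W (X (j + 1))) ≤ 50 * (D + R) ∧
    exc (pt W (X j * a ^ t)) (pt W (X (j + 1) * a ^ t)) (pt W (X (j + 1))) ≤ 50 * (D + R) ∧
    ∀ t' : ℤ, exc (pt W (X j * a ^ t')) (pt W (X (j + 1) * a ^ t)) (pt W (X (j + 1)))
      ≤ 50 * (D + R)

/-- the standing hypothesis on a corner path -/
structure Hyp5 {Γ : Type} [Group Γ] (W : WNorm Γ) (a b : Γ) (δ D R : ℝ) (X : ℤ → Γ) (lam : ℤ → ℕ)
    (s : ℤ → Γ) (E Λ : ℕ) : Prop where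
  good : Good W a b δ D
  cor : Cor W a X lam s E Λ R
  hR : 2 ≤ R
  hE : 10 ^ 6 * (D + R) ≤ E
  hΛ : E ≤ Λ

/-- G6 (corners are near geodesics).  Apply G1 with `κ = 60 U` to the sequences
`X i, X (i+1), …, X j, X j a^t` and `X j a^t, X (j+1), …, X k`; the angles are bounded by G5 (replace
`X m a^(lam m)` by `X (m+1)`, an error `2R`), the interior segments have length `≥ E - R`. -/
def S_cor1 : Prop := ∀ {Γ : Type} [Group Γ] {W : WNorm Γ} {a b : Γ} {δ D R : ℝ} {X : ℤ → Γ}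
  {lam : ℤ → ℕ} {s : ℤ → Γ} {E Λ : ℕ}, Hyp5 W a b δ D R X lam s E Λ →
  (∀ (i m j t : ℤ), i ≤ m → m ≤ j →
    exc (pt W (X i)) (pt W (X j * a ^ t)) (pt W (X m)) ≤ 100 * (D + R)) ∧
  (∀ (j m k t : ℤ), j + 1 ≤ m → m ≤ k →
    exc (pt W (X j * a ^ t)) (pt W (X k)) (pt W (X m)) ≤ 100 * (D + R)) ∧
  (∀ (j m k t t' : ℤ), j + 1 ≤ m → m ≤ k →
    exc (pt W (X j * a ^ t)) (pt W (X k * a ^ t')) (pt W (X m)) ≤ 100 * (D + R))

/-- G7 (distances of corners), from G6 by induction on `k`. -/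
def S_cor2 : Prop := ∀ {Γ : Type} [Group Γ] {W : WNorm Γ} {a b : Γ} {δ D R : ℝ} {X : ℤ → Γ}
  {lam : ℤ → ℕ} {s : ℤ → Γ} {E Λ : ℕ}, Hyp5 W a b δ D R X lam s E Λ →
  ∀ i k : ℤ, i ≤ k →
    (∑ j ∈ Finset.Ico i k, (lam j : ℝ)) - (k - i) * (200 * (D + R)) ≤
      dist (pt W (X i)) (pt W (X k)) ∧
    dist (pt W (X i)) (pt W (X k)) ≤ (∑ j ∈ Finset.Ico i k, (lam j : ℝ)) + (k - i) * R

/-- G8 (the lines of the blocks are distinct).  Let `j < k` and `X k = X j a^t`.  If `k = j + 1` then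
`s j ∈ <a>`, a contradiction.  Otherwise G6 with this `t` gives
`2 * dist (X k) (X (j+1)) = exc (X k) (X k) (X (j+1)) ≤ 100 U`, in contradiction to G7. -/
def S_dl : Prop := ∀ {Γ : Type} [Group Γ] {W : WNorm Γ} {a b : Γ} {δ D R : ℝ} {X : ℤ → Γ}
  {lam : ℤ → ℕ} {s : ℤ → Γ} {E Λ : ℕ}, Hyp5 W a b δ D R X lam s E Λ →
  ∀ j k : ℤ, (X j)⁻¹ * X k ∈ Subgroup.zpowers a → j = k

/-- G9 (lines which are close are adjacent).  If `m + 2 ≤ k` then G6 for `X m a^t, X (m+1), …, X k,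
X k a^t'` gives `dist u v ≥ dist u (X (m+1)) + dist (X (m+1)) v - 100 U ≥ dist (X (m+1)) v - 100 U` and
`dist (X (m+1)) v ≥ dist (X (m+1)) (X k) - 100 U ≥ E / 2`. -/
def S_adj : Prop := ∀ {Γ : Type} [Group Γ] {W : WNorm Γ} {a b : Γ} {δ D R : ℝ} {X : ℤ → Γ}
  {lam : ℤ → ℕ} {s : ℤ → Γ} {E Λ : ℕ}, Hyp5 W a b δ D R X lam s E Λ →
  ∀ (m k : ℤ) (u v : Γ), (X m)⁻¹ * u ∈ Subgroup.zpowers a → (X k)⁻¹ * v ∈ Subgroup.zpowers a →
    dist (pt W u) (pt W v) ≤ 10 * (D + R) → |m - k| ≤ 1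

/-- G10 (projections of the path on the line of a block).
(1) For the projection `π = X j a^t` (G2) of `X i`, G6 gives
`dist (X i) π ≥ dist (X i) (X j) + |t| - 100U` while `dist (X i) π ≤ dist (X i) (X j) + 6δ`.
(2) is similar, at the exit point `Y = X j a^(lam j)` (`dist Y (X (j+1)) ≤ R`).  (3) follows:
the projections of `X i`, `X k` are `150 U`-near `X j` and `Y`. -/
def S_m1 : Prop := ∀ {Γ : Type} [Group Γ] {W : WNorm Γ} {a b : Γ} {δ D R : ℝ} {X : ℤ → Γ}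
  {lam : ℤ → ℕ} {s : ℤ → Γ} {E Λ : ℕ}, Hyp5 W a b δ D R X lam s E Λ →
  (∀ i j : ℤ, i ≤ j → pd (Ln W a (X j)) (pt W (X i)) (pt W (X j)) ≤ 300 * (D + R) ∧
    ∀ q, IsProj (6 * δ) (Ln W a (X j)) (pt W (X i)) q → dist q (pt W (X j)) ≤ 300 * (D + R)) ∧
  (∀ j k : ℤ, j < k → pd (Ln W a (X j)) (pt W (X (j + 1))) (pt W (X k)) ≤ 300 * (D + R) ∧
    ∀ q, IsProj (6 * δ) (Ln W a (X j)) (pt W (X k)) q →
      dist q (pt W (X (j + 1))) ≤ 300 * (D + R)) ∧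
  (∀ i j k : ℤ, i ≤ j → j < k →
    lam j - 1000 * (D + R) ≤ pd (Ln W a (X j)) (pt W (X i)) (pt W (X k)))

/-- G11 (big lines are lines of blocks).  Suppose that no `j` exists.  By G3, for `i ≤ j < k`,
`pd_L (X j) (X (j+1)) ≤ D + R = U` (`L = v <a>`).  Put `f m = pd_L (X i) (X m)`; it changes by at most
`U` in each step.  Let `m₁` (`m₂`) be the least `m ≥ i` with `f m ≥ E/8` (`≥ E/4`); so
`f m₁ ≤ E/8 + U`, `f m₂ ≤ E/4 + U`, `m₁ < m₂ < k`.  For `m = m₁, m₂` the numbers `pd_L (X i) (X m)` and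
`pd_L (X m) (X k)` are `≥ E/8 - U`, and `far_of_pd`, `dist_le_of_proj` and
`exc (X i) (X k) (X m) ≤ 100U` (G6) give `dist (X m) L ≤ 75 U`.  Hence
`dist (X m₁) (X m₂) ≤ 150 U + pd_L (X m₁) (X m₂) + 6δ ≤ 3E/8 + 200 U`, but it is `≥ E - 200 U` by G7. -/
def S_m2 : Prop := ∀ {Γ : Type} [Group Γ] {W : WNorm Γ} {a b : Γ} {δ D R : ℝ} {X : ℤ → Γ}
  {lam : ℤ → ℕ} {s : ℤ → Γ} {E Λ : ℕ}, Hyp5 W a b δ D R X lam s E Λ →
  ∀ (v : Γ) (i k : ℤ), i ≤ k → (E : ℝ) / 2 ≤ pd (Ln W a v) (pt W (X i)) (pt W (X k)) →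
    ∃ j, i ≤ j ∧ j < k ∧ v⁻¹ * X j ∈ Subgroup.zpowers a

/-- G12.  If it is `≥ E / 2` then (for `i ≤ k`) `v <a> = X j <a>` by G11, and
`pd ≤ 300 U + (Λ + R) + 300 U` by G10. -/
def S_ma : Prop := ∀ {Γ : Type} [Group Γ] {W : WNorm Γ} {a b : Γ} {δ D R : ℝ} {X : ℤ → Γ}
  {lam : ℤ → ℕ} {s : ℤ → Γ} {E Λ : ℕ}, Hyp5 W a b δ D R X lam s E Λ →
  ∀ (v : Γ) (i k : ℤ), pd (Ln W a v) (pt W (X i)) (pt W (X k)) ≤ 2 * Λ

/-- G13 (projections on the set of the corners).  Let `q = X i` be a corner nearest to `x`, `y = X k`,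
say `k > i`.  `exc q y (X (i+1)) ≤ 100 U` (G6) and `dist x q ≤ dist x (X (i+1))`; `exc_split` gives
`exc x y q ≤ dist q (X (i+1)) + 2δ ≤ Λ + R + 2δ`. -/
def S_cproj : Prop := ∀ {Γ : Type} [Group Γ] {W : WNorm Γ} {a b : Γ} {δ D R : ℝ} {X : ℤ → Γ}
  {lam : ℤ → ℕ} {s : ℤ → Γ} {E Λ : ℕ}, Hyp5 W a b δ D R X lam s E Λ →
  ∀ x : Pt W, ∃ q, IsProj (3 * Λ) (SX W X) x q

/-- G14.  Let `X i`, `X k` be the projections (G13) of `p`, `q ∈ v <a>`.  If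
`dist (X i) (X k) > 16 Λ` then `far_of_proj` gives
`dist p (X i) + dist (X i) (X k) + dist (X k) q ≤ dist p q + 7Λ`, and `le_pd` (with the points `q`, `p`
of `v <a>`) gives `pd_L (X i) (X k) ≥ dist p q - dist p (X i) - dist q (X k) ≥ 9Λ`, in contradiction
to G12.  Finally use `pd_le_of_proj`. -/
def S_mb : Prop := ∀ {Γ : Type} [Group Γ] {W : WNorm Γ} {a b : Γ} {δ D R : ℝ} {X : ℤ → Γ}
  {lam : ℤ → ℕ} {s : ℤ → Γ} {E Λ : ℕ}, Hyp5 W a b δ D R X lam s E Λ →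
  ∀ (v : Γ) (i k : ℤ), pd (SX W X) (pt W (v * a ^ i)) (pt W (v * a ^ k)) ≤ 20 * Λ

/-- G15 (deep blocks are big for all pairs of points which project far away).  Put
`A = X j <a>`.  `pd_A p (X i) ≤ 30 δ`: otherwise, with projections `π` of `p`, `π'` of `X i` on `A`
(G2), `far_of_pd` gives `dist p π + pd_A p (X i) + dist π' (X i) ≤ dist p (X i) + 20 δ`, and
`dist π' (X j) ≤ 300 U` (G10), so `dist p (X j) ≤ dist p (X i) - dist (X i) (X j) + 700 U`; since `X i`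
is a projection of `p`, `dist p (X i) + dist (X i) (X j) ≤ dist p (X j) + 3Λ`; contradiction to
`dist (X i) (X j) ≥ 30 Λ`.  In the same way `pd_A (X k) q ≤ 30 δ`.  Use G10 (3). -/
def S_mc : Prop := ∀ {Γ : Type} [Group Γ] {W : WNorm Γ} {a b : Γ} {δ D R : ℝ} {X : ℤ → Γ}
  {lam : ℤ → ℕ} {s : ℤ → Γ} {E Λ : ℕ}, Hyp5 W a b δ D R X lam s E Λ →
  ∀ (p q : Pt W) (i j k : ℤ), IsProj (3 * Λ) (SX W X) p (pt W (X i)) →
    IsProj (3 * Λ) (SX W X) q (pt W (X k)) → i ≤ j → j < k →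
    30 * (Λ : ℝ) ≤ dist (pt W (X i)) (pt W (X j)) →
    30 * (Λ : ℝ) ≤ dist (pt W (X (j + 1))) (pt W (X k)) →
    lam j - 2000 * (D + R) ≤ pd (Ln W a (X j)) p q

/-- G16 (matching of two corner paths).  The index `m` of `j` is unique by G8 for `X'`.  For two
consecutive `j`, the points `X j a^(lam j)` and `X (j+1)` have distance `≤ R`, so the indices `m` differ
by at most `1` (G9 for `X'`), and they differ by G8 for `X`; the difference is always the same since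
the indices of `j` and `j + 2` differ (G8 for `X`). -/
def S_run : Prop := ∀ {Γ : Type} [Group Γ] {W : WNorm Γ} {a b : Γ} {δ D R : ℝ} {X X' : ℤ → Γ}
  {lam lam' : ℤ → ℕ} {s s' : ℤ → Γ} {E Λ : ℕ}, Hyp5 W a b δ D R X lam s E Λ →
  Hyp5 W a b δ D R X' lam' s' E Λ → ∀ j₁ j₂ : ℤ, j₁ ≤ j₂ →
  (∀ j, j₁ ≤ j → j ≤ j₂ → ∃ m, (X j)⁻¹ * X' m ∈ Subgroup.zpowers a) →
  ∃ m₀ ε : ℤ, (ε = 1 ∨ ε = -1) ∧
    ∀ j, j₁ ≤ j → j ≤ j₂ → (X j)⁻¹ * X' (m₀ + ε * (j - j₁)) ∈ Subgroup.zpowers a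

/-- G17 (exact matching).  `v = u a^q`, so `(u a^l c)⁻¹ (v a^l' c) = c⁻¹ a^(q + l' - l) c ∈ <a>`, and
`q + l' - l = 0` by G4. -/
def S_algp : Prop := ∀ {Γ : Type} [Group Γ] {W : WNorm Γ} {a b : Γ} {δ D : ℝ},
  Good W a b δ D → ∀ (u v c : Γ) (l l' : ℤ), c ∉ Subgroup.zpowers a →
  u⁻¹ * v ∈ Subgroup.zpowers a → (u * a ^ l * c)⁻¹ * (v * a ^ l' * c) ∈ Subgroup.zpowers a →
  u * a ^ l * c = v * a ^ l' * c

/-- G18 (no antiparallel matching).  `v = u a^l b^κ a^q`, `v a^l' b^κ' = u a^t`, so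
`b^κ a^(q+l') b^κ' = a^(t-l)`, i.e. `b^(-κ) = a^(q+l') b^κ' a^(l-t)`, in contradiction to `dc`. -/
def S_algm : Prop := ∀ {Γ : Type} [Group Γ] {W : WNorm Γ} {a b : Γ} {δ D : ℝ},
  Good W a b δ D → ∀ (u v : Γ) (κ κ' : ℕ) (l l' : ℤ), 1 ≤ κ → κ ≤ 3 → 1 ≤ κ' → κ' ≤ 3 →
  u⁻¹ * (v * a ^ l' * b ^ κ') ∈ Subgroup.zpowers a →
  (u * a ^ l * b ^ κ)⁻¹ * v ∈ Subgroup.zpowers a → False

/-- G19 (the connectors of a parallel matching agree).  `v = u a^q`, so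
`b^(-κ) a^(q + l' - l) b^κ' ∈ <a>`, i.e. `b^κ' = a^i b^κ a^j`; use `dc`. -/
def S_algk : Prop := ∀ {Γ : Type} [Group Γ] {W : WNorm Γ} {a b : Γ} {δ D : ℝ},
  Good W a b δ D → ∀ (u v : Γ) (κ κ' : ℕ) (l l' : ℤ), 1 ≤ κ → κ ≤ 3 → 1 ≤ κ' → κ' ≤ 3 →
  u⁻¹ * v ∈ Subgroup.zpowers a →
  (u * a ^ l * b ^ κ)⁻¹ * (v * a ^ l' * b ^ κ') ∈ Subgroup.zpowers a → κ = κ'

/-- part G, the tools about corner paths -/
structure ToolG : Prop where
  lnproj : S_lnproj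
  malpair : S_malpair
  malalg : S_malalg
  cor1 : S_cor1
  cor2 : S_cor2
  dl : S_dl
  adj : S_adj
  m1 : S_m1
  m2 : S_m2
  ma : S_ma
  cproj : S_cproj
  mb : S_mb
  mc : S_mc
  run : S_run
  algp : S_algp
  algm : S_algm
  algk : S_algk

end Pool.Agent.H343.QF
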