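import Pool.Agent.H343.QF.StG
import Pool.Agent.H343.AN.StAB

set_option autoImplicit false
set_option linter.unusedSectionVars false

/-! # MP_9a852a_al, statements, part R (the axis of a relator) and part Q (the quotient) -/

namespace Pool.Agent.H343.QF

open Pool.Agent.TH68 Pool.Agent.Helper97.Hyp Pool.Agent.H343.AN

/-- the hypothesis on a normalised relator -/
structure HypR {Γ : Type} [Group Γ] (W : WNorm Γ) (a b : Γ) (δ D R : ℝ) (n E l0 κ : ℕ) (g : Γ) :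
    Prop where
  good : Good W a b δ D
  bd : BD W a D R n E l0 κ g

/-! ## Part R -/

/-- R1 (the axis of the relator is a corner path).  With `j = q (n+1) + t`, `0 ≤ t ≤ n`: for `t < n`
`Xr (j+1) = ρ^q Qp (t+1)`, and for `t = n` `Xr (j+1) = ρ^(q+1) = ρ^q (Qp n) a^(lamt n) g`.
`b ^ κ ∉ <a>` by `dc` with `j = 0`. -/
def S_rcor : Prop := ∀ {Γ : Type} [Group Γ] {W : WNorm Γ} {a b : Γ} {δ D R : ℝ}
  {n E l0 κ : ℕ} {g : Γ}, HypR W a b δ D R n E l0 κ g →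
  Hyp5 W a b δ D R (Xr a b n E l0 κ g) (lamr n E l0) (sr b n κ g) E (LL n E) ∧
  ∀ (j e : ℤ), Xr a b n E l0 κ g (j + e * ((n : ℤ) + 1)) =
    rho a b n E l0 κ g ^ e * Xr a b n E l0 κ g j

/-- R2 (small projections of the translates of the axis).  `X = Xr`, `Λ = LL n E`, `X' = x X`.

Proof.  Suppose `pd (SX X) p q > 400 Λ` for `p = X' i'`, `q = X' k'`.  Let `X i`, `X k` be the
projections (`cproj`) of `p`, `q`; `dist (X i) (X k) ≥ 397 Λ`, and we may assume `i < k` (exchange `p`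
and `q`).  By `cor2`, `dist (X i) (X j)` is `0.999 F j ≤ … ≤ 1.001 F j` with `F j = ∑_{i ≤ m < j} lam m`.
So there are `≥ 100` consecutive integers `j₁ ≤ j ≤ j₁ + 99` with `30Λ ≤ dist (X i) (X j)`,
`30Λ ≤ dist (X (j+1)) (X k)`.  By `mc`, `pd_{X j <a>} p q ≥ lam j - 2000 U ≥ E / 2`, and `m2` for the
corner path `X'` gives `m` with `(X j)⁻¹ X' m ∈ <a>`.  `run` gives `m₀, ε`; put `m = m₀ + ε (j - j₁)`.
At most two of the `j` and two of the `m` have residues in `{n, 0}` modulo `n + 1`, so there are four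
consecutive `j` such that they and the corresponding `m` have other residues, so that the connectors
are `b ^ κ` and `lam = (residue + 1) E`.  `ε = -1` is impossible by `algm` (`u = X j`,
`v = X' (m-1)`).  If `ε = 1`, `algp` gives `X (j+1) = X' (m+1)` and `X (j+2) = X' (m+2)`, so
`a^lam (j+1) = a^lam (m+1)`, `lam (j+1) = lam (m+1)`, the residues `t` of `j+1` and `m+1` agree, and
`ρ^e Qp t = x ρ^e' Qp t`, i.e. `x ∈ <ρ>`. -/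
def S_rsmall : Prop := ∀ {Γ : Type} [Group Γ] {W : WNorm Γ} {a b : Γ} {δ D R : ℝ}
  {n E l0 κ : ℕ} {g : Γ}, HypR W a b δ D R n E l0 κ g →
  ∀ x, x ∉ Subgroup.zpowers (rho a b n E l0 κ g) → ∀ i k : ℤ,
    pd (SX W (Xr a b n E l0 κ g)) (pt W (x * Xr a b n E l0 κ g i))
      (pt W (x * Xr a b n E l0 κ g k)) ≤ 400 * LL n E

/-- R3 (perimeter).  `far`: `ρ^e X j = X (j + e (n+1))` (R1), and the sum of `lam` over `n + 1`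
consecutive indices is `P0`; use `cor2`, `200 (n+1) U ≤ E`.  `cob`: choose `k' ≡ k` modulo `n + 1` with
`i ≤ k' ≤ i + n`; one of the sums of `lam` from `i` to `k'` and from `k' - (n+1)` to `i` is `≤ P0 / 2`;
use the upper bound of `cor2`, `(n+1) R ≤ E`.  The last two inequalities are arithmetic. -/
def S_rdist : Prop := ∀ {Γ : Type} [Group Γ] {W : WNorm Γ} {a b : Γ} {δ D R : ℝ}
  {n E l0 κ : ℕ} {g : Γ}, HypR W a b δ D R n E l0 κ g →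
  (∀ (e : ℤ) (j : ℤ), e ≠ 0 → (P0 n E l0 : ℝ) - LL n E ≤ dist (pt W (Xr a b n E l0 κ g j))
    (pt W (rho a b n E l0 κ g ^ e * Xr a b n E l0 κ g j))) ∧
  (∀ i k : ℤ, ∃ e : ℤ, dist (pt W (Xr a b n E l0 κ g i))
    (pt W (rho a b n E l0 κ g ^ e * Xr a b n E l0 κ g k)) ≤ (P0 n E l0 : ℝ) / 2 + 3 * LL n E) ∧
  (n : ℝ) ^ 2 * E / 2 ≤ P0 n E l0 ∧ (P0 n E l0 : ℝ) ≤ (n : ℝ) ^ 2 * E

/-- R4 (normalisation of a relator).  `blk (b^κ) (a^E) B = ∏_{k=1}^B (a^(kE) b^κ)`.  If `b^κ h ∉ <a>`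
take `n + 1 = B`, `l0 = E`, `g = b^κ h`, `w = 1`.  If `b^κ h = a^m` then `|m| ≤ R + 2` (`Good.pow`), take
`n + 2 = B`, `l0 = (B + 1) E + m`, `g = b^κ` and `w = a^(B E + m)`. -/
def S_norm : Prop := ∀ {Γ : Type} [Group Γ] {W : WNorm Γ} {a b : Γ} {δ D : ℝ},
  Good W a b δ D → ∀ (B E κ : ℕ) (R : ℝ) (h : Γ), 10 ^ 14 ≤ B → (κ = 1 ∨ κ = 2) → 2 ≤ R →
  (W.ℓ h : ℝ) ≤ R → 10 ^ 8 * B * (D + R) ≤ E →
  ∃ (n l0 : ℕ) (g w : Γ), (B = n + 1 ∨ B = n + 2) ∧ BD W a D (R + 2) n E l0 κ g ∧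
    rho a b n E l0 κ g = w * (blk (b ^ κ) (a ^ E) B * h) * w⁻¹

/-- R5 (windmill theorem for a system of axes).  `Spin.swind` of `TH68/Wind.lean` for the
`ProjSys` (`Helper97/Hyp/Windmill.lean`) with `d A = pd (Y.S A)`, `r p A = Metric.infDist p (Y.S A)`
and the constant `10 θ`.  `beh`: `S_behr`.  `closer`: as `closer_ax` in `Helper97/Hyp/System.lean`
(for `b₁ ∈ S B`: `pd_A p b₁ ≥ 9θ`, and `far_of_pd` gives `dist p b₁ ≥ dist p p' + 4θ`).  `fin`: if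
`10 θ < pd_A p q` then the projection `p'` of `p` satisfies `dist p p' ≤ dist p q + 5θ` (`far_of_pd`);
balls are finite (`proper`, `W.fin`) and every point is on finitely many axes.
`spin`: `pd_A p (g p) ≥ dist p' (g p') - θ`. -/
def S_windgen : Prop := ∀ {Γ : Type} [Group Γ] {W : WNorm Γ} {𝒜 : Type} [MulAction Γ 𝒜]
  (Y : Sys Γ W 𝒜) (G : 𝒜 → Subgroup Γ) (ρ : ℝ), (∀ A, ∀ r ∈ G A, r • A = A) →
  (∀ (γ : Γ) (A : 𝒜), ∀ r ∈ G A, γ * r * γ⁻¹ ∈ G (γ • A)) →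
  (∀ A, ∀ r ∈ G A, r ≠ 1 → ∀ q ∈ Y.S A, ρ ≤ dist q (r • q)) → 10 ^ 4 * Y.θ ≤ ρ →
  (∀ x : Pt W, {A | x ∈ Y.S A}.Finite) → ∀ n ∈ (⨆ A, G A), n ≠ 1 → ∀ x : Pt W,
    ∃ A, ∃ r ∈ G A, r ≠ 1 ∧ pd (Y.S A) (r • x) (n • x) ≤ 420 * Y.θ

/-- R6 (the system of the axes of the relator).  `𝒜 = Γ ⧸ <ρ>`, the axis of the coset of `x` is
`{x X j}`, `G A = x <ρ> x⁻¹`.  `proj`: `cproj` (`3Λ ≤ θ`).  `small`: R2, and `pd_smul`.  `far`,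
`cob`: R3 (`P0/2 + 3Λ ≤ (P0 - Λ)/2 + θ`).  `wind`: R5 for the same system with the constant
`10^4 Λ`, `420 * 10^4 Λ ≤ 50 θ`; `⨆ A, G A` is the normal closure of `ρ`; a point `y` is on the axes of
the cosets of `y (X j)⁻¹`, `0 ≤ j ≤ n`, only. -/
def S_sp : Prop := ∀ {Γ : Type} [Group Γ] {W : WNorm Γ} {a b : Γ} {δ D R : ℝ}
  {n E l0 κ : ℕ} {g : Γ}, HypR W a b δ D R n E l0 κ g →
  ∃ Y : Sys Γ W (Γ ⧸ Subgroup.zpowers (rho a b n E l0 κ g)), Y.θ = 10 ^ 5 * LL n E ∧ Y.δ = δ ∧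
    (∀ x : Γ, Y.S (x : Γ ⧸ Subgroup.zpowers (rho a b n E l0 κ g)) =
      {p | ∃ j : ℤ, p = pt W (x * Xr a b n E l0 κ g j)}) ∧
    ∃ S : Sp Y, S.N = Subgroup.normalClosure {rho a b n E l0 κ g} ∧
      S.ρ = (P0 n E l0 : ℝ) - LL n E ∧ 10 ^ 6 * Y.θ ≤ S.ρ

/-- part R -/
structure ToolR : Prop where
  rcor : S_rcor
  rsmall : S_rsmall
  rdist : S_rdist
  norm : S_norm
  sp : S_sp

/-! ## Part Q.  `Y` is a system, `R : Sp Y`, `W'` is the quotient norm on `Γ ⧸ R.N` -/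

/-- projections of the lines `v <a>` on the axes are small -/
def HL {Γ : Type} [Group Γ] {W : WNorm Γ} {𝒜 : Type} [MulAction Γ 𝒜] (Y : Sys Γ W 𝒜) (a : Γ) :
    Prop :=
  ∀ (A : 𝒜) (v : Γ) (i k : ℤ), pd (Y.S A) (pt W (v * a ^ i)) (pt W (v * a ^ k)) ≤ Y.θ

/-- Q1.  From `wind`; see B3 (`S_wind` in `AN/StAB.lean`; `IsProj.fix` in `TH68/T7.lean`). -/
def S_q1 : Prop := ∀ {Γ : Type} [Group Γ] {W : WNorm Γ} {𝒜 : Type} [MulAction Γ 𝒜]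
  (Y : Sys Γ W 𝒜) (R : Sp Y) {n : Γ}, n ∈ R.N → n ≠ 1 → ∀ x : Pt W,
  ∃ A, ∃ r ∈ R.G A, r ≠ 1 ∧ pd (Y.S A) (r • x) (n • x) ≤ 50 * Y.θ ∧
    R.ρ - 51 * Y.θ ≤ pd (Y.S A) x (n • x)

/-- Q2.  See B2 (`S_redpd` in `AN/StAB.lean`). -/
def S_q2 : Prop := ∀ {Γ : Type} [Group Γ] {W : WNorm Γ} {𝒜 : Type} [MulAction Γ 𝒜]
  (Y : Sys Γ W 𝒜) (R : Sp Y), 10 ^ 5 * Y.θ ≤ R.ρ → ∀ (A : 𝒜) {p q : Pt W},
  Red R.N p q → pd (Y.S A) p q ≤ R.ρ / 2 + 6 * Y.θ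

/-- Q3 (the quotient is hyperbolic, with a linear constant).  Copy `poly`, `near_axis7`, `caseA`,
`caseB`, `claim` of `TH68/T7.lean` and `t7q` of `AN/T7q.lean` with `Spn` replaced by `Sp` (only `wind`,
`spin` = `far`, `fix`, `G_le`, `cob` are used); the constant is `2 (500 θ + R₀) + 2`,
`R₀ = ρ / 2 + θ`. -/
def S_q3 : Prop := ∀ {Γ : Type} [Group Γ] {W : WNorm Γ} {𝒜 : Type} [MulAction Γ 𝒜]
  (Y : Sys Γ W 𝒜) (R : Sp Y), 10 ^ 5 * Y.θ ≤ R.ρ → ∀ W' : WNorm (Γ ⧸ R.N), Quo W R.N W' →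
  GHyp (Pt W') (2 * R.ρ)

/-- Q4 (injectivity radius), from Q1 with `x = 1` and `pd_le_dist`. -/
def S_q4 : Prop := ∀ {Γ : Type} [Group Γ] {W : WNorm Γ} {𝒜 : Type} [MulAction Γ 𝒜]
  (Y : Sys Γ W 𝒜) (R : Sp Y), 10 ^ 5 * Y.θ ≤ R.ρ → ∀ n ∈ R.N, n ≠ 1 → R.ρ / 2 ≤ (W.ℓ n : ℝ)

/-- Q5 (no torsion).  Proof of `t1` in `TH68/T1.lean` (with `factW`, for `Sp`): choose `m ∈ N` and `x`
such that `dist x (v • x)`, `v = m u`, is minimal; suppose `v ≠ 1`, so that `v ^ k ≠ 1`.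
If `dist x (v • x) > 100 θ`, the argument of `t1` gives an axis `A` with `v • A = A`.
If `dist x (v • x) ≤ 100 θ`: let `A` be the axis of Q1 for `v ^ k` and `x`.  If `v • A ≠ A` then
`pd_A x (v^k x)` and `pd_{vA} x (v^k x)` are `≥ ρ - 300θ` (`v` commutes with `v ^ k`, `pd_smul`).  `S_order`
for `A`, `v A`: say `A` comes first; `S_odist` with the point `v • a` of `S (v A)`, `a` the projection of
`x` on `S A`, gives `pd_A x (v^k x) ≤ dist x (v • a) - dist x a + 20θ ≤ 120θ`.  If `v A` comes first use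
`v⁻¹ • b`, `b` the projection of `x` on `S (v A)`.  So `v • A = A`, and `v ∈ N` by hypothesis. -/
def S_q5 : Prop := ∀ {Γ : Type} [Group Γ] {W : WNorm Γ} {𝒜 : Type} [MulAction Γ 𝒜]
  (Y : Sys Γ W 𝒜) (R : Sp Y), 10 ^ 5 * Y.θ ≤ R.ρ →
  (∀ (g : Γ) (n : ℕ), 0 < n → g ^ n = 1 → g = 1) → (∀ (A : 𝒜) (u : Γ), u • A = A → u ∈ R.N) →
  ∀ (u : Γ) (k : ℕ), 0 < k → u ^ k ∈ R.N → u ∈ R.N

/-- Q6 (powers of `a`).  Let `h = a^k m` (`m ∈ N`) have length `W'.ℓ (a^k)`, so `Red N 1 h`, and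
`a^k = n h` with `n ∈ N`.  If `n ≠ 1`, Q1 with `x = h` gives `A` with
`ρ - 51θ ≤ pd_A h (n h) ≤ pd_A h 1 + pd_A 1 a^k ≤ ρ/2 + 6θ + θ` (Q2, `HL`), a contradiction. -/
def S_q6 : Prop := ∀ {Γ : Type} [Group Γ] {W : WNorm Γ} {𝒜 : Type} [MulAction Γ 𝒜]
  (Y : Sys Γ W 𝒜) (R : Sp Y), 10 ^ 5 * Y.θ ≤ R.ρ → ∀ a : Γ, HL Y a →
  (∀ k : ℤ, (W.ℓ (a ^ k) : ℤ) = |k|) → ∀ W' : WNorm (Γ ⧸ R.N), Quo W R.N W' →
  ∀ k : ℤ, (W'.ℓ ((a : Γ ⧸ R.N) ^ k) : ℤ) = |k|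

/-- Q7 (malnormality in the quotient, with a linear constant).  `δ' = 2ρ` (Q3).

Proof.  Let `p, q ∈ ū <ā>`, `π`, `π'` projections (proof of G2 for `W'`, with Q3 and Q6) of `p`, `q` on
`<ā>`, and suppose `pd > 10^4 ρ`; so `π = ā^s`, `π' = ā^t`, `|s - t| ≥ 9000 ρ`.  `far_of_proj` gives
`exc p q π, exc p q π' ≤ 14 δ'`, and there are points `p₁, q₁ ∈ ū <ā>` between `p` and `q` with
`dist π p₁, dist π' q₁ ≤ 64 ρ` (`order_close`).  Lift: `v₀ = a^s`, `v₁ = a^t`, `v₂` with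
`v̄₂ = q₁`, `dist v₁ v₂ ≤ 64 ρ`, `Red N v₁ v₂`; `v₃ = v₂ a^e` with `v̄₃ = p₁`; `v₄` with `v̄₄ = π`,
`dist v₃ v₄ ≤ 64ρ`, `Red N v₃ v₄`; `v₄ = n v₀` with `n ∈ N`.
If `n ≠ 1`: Q1 gives `A` with `pd_A v₀ v₄ ≥ ρ - 51θ`; `pd_A v₀ v₁, pd_A v₂ v₃ ≤ θ` (`HL`),
`pd_A v₁ v₂, pd_A v₃ v₄ ≤ ρ/2 + 6θ` (Q2), so both are `≥ ρ/2 - 60θ ≥ 3θ`, and `S_near` shows that `v₂`
and `v₃` have distance `≤ 64ρ + 5θ` from their projections on `S A`, which have distance `≤ 2θ`; so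
`dist v₂ v₃ ≤ 130ρ`, but `dist v₂ v₃ = |e| ≥ dist q₁ p₁ ≥ 9000ρ - 128ρ`.
So `n = 1`, `v₄ = v₀`.  If `v₂ ∉ <a>` then `mal` gives `pd_{<a>} v₂ v₃ ≤ D ≤ ρ`, but it is
`≥ pd_{<a>} v₀ v₁ - 128 ρ ≥ 8000 ρ`.  So `v₂ ∈ <a>`, `q₁ ∈ <ā>` and `ū ∈ <ā>`. -/
def S_q7 : Prop := ∀ {Γ : Type} [Group Γ] {W : WNorm Γ} {𝒜 : Type} [MulAction Γ 𝒜]
  (Y : Sys Γ W 𝒜) (R : Sp Y), 10 ^ 5 * Y.θ ≤ R.ρ → ∀ (a b : Γ) (δ D : ℝ), Good W a b δ D → D ≤ R.ρ →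
  HL Y a → ∀ W' : WNorm (Γ ⧸ R.N), Quo W R.N W' →
  ∀ u : Γ ⧸ R.N, u ∉ Subgroup.zpowers (a : Γ ⧸ R.N) → ∀ p ∈ Ln W' (a : Γ ⧸ R.N) u,
    ∀ q ∈ Ln W' (a : Γ ⧸ R.N) u, pd (Ln W' (a : Γ ⧸ R.N) 1) p q ≤ 10 ^ 4 * R.ρ

/-- Q8 (double cosets).  `n = a^k b^j a^l b^(-i) ∈ N`; if `n ≠ 1`, Q1 with `x = 1` gives
`ρ - 51θ ≤ pd_A 1 n ≤ θ + |j| + θ + |i|` (`HL`, `pd_le_dist`), a contradiction. -/
def S_q8 : Prop := ∀ {Γ : Type} [Group Γ] {W : WNorm Γ} {𝒜 : Type} [MulAction Γ 𝒜]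
  (Y : Sys Γ W 𝒜) (R : Sp Y), 10 ^ 5 * Y.θ ≤ R.ρ → ∀ (a b : Γ), HL Y a → W.ℓ b = 1 →
  ∀ i j k l : ℤ, |i| ≤ 3 → |j| ≤ 3 → a ^ k * b ^ j * a ^ l * b ^ (-i) ∈ R.N →
    a ^ k * b ^ j * a ^ l * b ^ (-i) = 1

/-- Q9 (the quotient is good): Q3 – Q8.  `gen`: an element of length `1` of the quotient has a lift of
length `1`; `lb`: `b ∉ N` by Q4. -/
def S_q9 : Prop := ∀ {Γ : Type} [Group Γ] {W : WNorm Γ} {𝒜 : Type} [MulAction Γ 𝒜]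
  (Y : Sys Γ W 𝒜) (R : Sp Y), 10 ^ 5 * Y.θ ≤ R.ρ → ∀ (a b : Γ) (δ D : ℝ), Good W a b δ D → D ≤ R.ρ →
  HL Y a → (∀ (A : 𝒜) (u : Γ), u • A = A → u ∈ R.N) →
  ∀ W' : WNorm (Γ ⧸ R.N), Quo W R.N W' →
  Good W' (a : Γ ⧸ R.N) (b : Γ ⧸ R.N) (2 * R.ρ) (10 ^ 4 * R.ρ)

/-- Q10 (the words `Sd` which are killed).  `X = Xr`, `Λ = LL n E`, `U = D + R`.

Proof.  Let `S = Sd B b (a^i) (a^j) (a^k) ∈ N`, `S ≠ 1`.  Put `w 0 = 1`, `w 1 = a^i b^3`,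
`w 2 = w 1 a^j b^3`, `w (s+1) = w s a^((s-1) k) b^2` for `2 ≤ s ≤ B + 1`; `w (B+2) = S`.  The path
`1 → S` consists of the segments of the lines `w s <a>`, `0 ≤ s ≤ B + 1`, and connectors of length
`≤ 3`.  So (`malpair`) a line `L = v <a>` different from all `w s <a>` satisfies
`pd_L 1 S ≤ (B + 2) (D + 3) < E / 2`.
Let `A` be the axis of Q1 for `S` and `x = 1` (system of R6): the axis of the coset of some `x`;
`X' = x X` (a corner path).  Let `X' i'`, `X' k'` be the projections (`cproj`, transported) of `1` and `S`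
on the corners of `X'`, `dist (X' i') (X' k') ≥ ρ - 52θ ≥ P0 - 53θ`.  Let `i' < k'` (otherwise exchange
`1` and `S`).  By `mc` and the above, each line `X' j <a>` with `30Λ ≤ dist (X' i') (X' j)` and
`30Λ ≤ dist (X' (j+1)) (X' k')` is one of the lines `w s <a>`.  These `j` contain an interval
`j₁ ≤ j ≤ j₂` with `∑ lam ≥ P0 - 55θ`.  If it has more than `n + 1` elements make it shorter.  The
missing residues `t` modulo `n + 1` have `∑ lamt t ≤ 55θ`, so there are at most `n / 1000` of them (the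
sum of `m` distinct values `lamt t` is at least `m^2 E / 2`; `m^2 ≤ 2 * 55 * 10^5 * 3 (n+1)`,
`n ≥ 10^13`).  The map `j ↦ s` is injective (`dl`), so its image contains all but at most `n / 500`
elements of `{2, …, B+1}`, hence four consecutive `s, s+1, s+2, s+3` which are images of numbers `j` with
residues different from `0` and `n`.  `w (s+1) = w s a^((s-1) k) b^2`, so the lines of `s`, `s+1` are at
distance `≤ 2`, and `adj` shows that the corresponding `j` are adjacent; since they are distinct,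
they are `j, j + ε, j + 2ε, j + 3ε`.  `ε = -1` is impossible by `algm`.  So `ε = 1`, `κ = 2` by `algk`, and
`algp` gives `w (s+1) = X' (j+1)`, `w (s+2) = X' (j+2)`, `w (s+3) = X' (j+3)`, whence
`s k = lam (j+1) = (t+1) E`, `(s+1) k = lam (j+2) = (t+2) E`, and `k = E`. -/
def S_q10 : Prop := ∀ {Γ : Type} [Group Γ] {W : WNorm Γ} {a b : Γ} {δ D R : ℝ}
  {n E l0 κ : ℕ} {g : Γ}, HypR W a b δ D R n E l0 κ g → ∀ B : ℕ, B = n + 1 ∨ B = n + 2 →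
  ∀ i j k : ℤ, Sd B b (a ^ i) (a ^ j) (a ^ k) ∈ Subgroup.normalClosure {rho a b n E l0 κ g} →
  Sd B b (a ^ i) (a ^ j) (a ^ k) = 1 ∨ (κ = 2 ∧ k = E)

/-- Q11 (the step).  By R4 and R6 and Q9; `HL` follows from `mb` (`20 Λ ≤ θ`), the stabiliser of the
coset of `x` is `x <ρ> x⁻¹`; the normal closures of the relator and of the normalised relator agree;
`B^2 E / 4 ≤ ρ ≤ 2 B^2 E`.  `Good` is monotone in `δ`, `D`. -/
def S_step : Prop := ∀ {Γ : Type} [Group Γ] {W : WNorm Γ} {a b : Γ} {δ D : ℝ},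
  Good W a b δ D → ∀ (B E κ : ℕ) (R : ℝ) (h : Γ), 10 ^ 14 ≤ B → (κ = 1 ∨ κ = 2) → 2 ≤ R →
  (W.ℓ h : ℝ) ≤ R → 10 ^ 8 * B * (D + R) ≤ E → ∀ (N : Subgroup Γ) [N.Normal],
  N = Subgroup.normalClosure {blk (b ^ κ) (a ^ E) B * h} →
  (∀ n ∈ N, n ≠ 1 → (B : ℝ) ^ 2 * E / 8 ≤ W.ℓ n) ∧
  (∀ i j k : ℤ, Sd B b (a ^ i) (a ^ j) (a ^ k) ∈ N →
    Sd B b (a ^ i) (a ^ j) (a ^ k) = 1 ∨ (κ = 2 ∧ k = E)) ∧
  ∀ W' : WNorm (Γ ⧸ N), Quo W N W' →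
    Good W' (a : Γ ⧸ N) (b : Γ ⧸ N) (4 * B ^ 2 * E) (10 ^ 5 * B ^ 2 * E)

end Pool.Agent.H343.QF
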