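import Pool.Agent.H343.QF.StQ
import Pool.Agent.H343.QF.Lac

set_option autoImplicit false
set_option linter.unusedSectionVars false

/-! # MP_9a852a_al, statements, part S : iteration, the limit group, its asymptotic cone -/

namespace Pool.Agent.H343.QF

open Pool.Agent.TH68 Pool.Agent.Helper97.Hyp Pool.Agent.H343.AN Filter Topology

/-- the free group of rank two -/
abbrev F2 : Type := FreeGroup (Fin 2)

/-- the first generator -/
abbrev xa : F2 := FreeGroup.of 0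

/-- the second generator -/
abbrev xb : F2 := FreeGroup.of 1

/-- the normal closure of the first `m` relators -/
def KK (B : ℕ) (ee : ℕ → ℕ) (m : ℕ) : Subgroup F2 :=
  Subgroup.normalClosure {x | ∃ i, i < m ∧ x = rel B ee xa xb i}

instance (B : ℕ) (ee : ℕ → ℕ) (m : ℕ) : (KK B ee m).Normal := Subgroup.normalClosure_normal

/-- the normal closure of all relators -/
def KI (B : ℕ) (ee : ℕ → ℕ) : Subgroup F2 := Subgroup.normalClosure (Set.range (rel B ee xa xb))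

instance (B : ℕ) (ee : ℕ → ℕ) : (KI B ee).Normal := Subgroup.normalClosure_normal

/-- the growth condition on the exponents -/
structure Gro (B : ℕ) (ee : ℕ → ℕ) : Prop where
  b : 10 ^ 14 ≤ B
  z : 10 ^ 20 * B ^ 6 ≤ ee 0
  s : ∀ m, 10 ^ 20 * B ^ 6 * (m + 2) ^ 2 * ee m ≤ ee (m + 1)

/-- the exponents -/
def eeB (B : ℕ) : ℕ → ℕ
  | 0 => 10 ^ 20 * B ^ 6
  | m + 1 => 10 ^ 20 * B ^ 6 * (m + 2) ^ 2 * eeB B m

/-- hyperbolicity constants of the stages -/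
def dlm (B : ℕ) (ee : ℕ → ℕ) : ℕ → ℝ
  | 0 => 1
  | m + 1 => 4 * B ^ 2 * ee m

/-- malnormality constants of the stages -/
def Dlm (B : ℕ) (ee : ℕ → ℕ) : ℕ → ℝ
  | 0 => 1
  | m + 1 => 10 ^ 5 * B ^ 2 * ee m

/-- S1 (the free group).  The norm of `S_f4b` (`AN/StF.lean`, proven in `Pool/Agent/H249/AN/F4.lean`),
it is `0`-hyperbolic.  `mal`: for `u ∉ <a>` the reduced word of `a^(-i) u a^k` is
`a^(p-i) v a^(k-q)` with a fixed word `v` which begins and ends with `b^±1` (`u = a^p v a^(-q)`), so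
`dist (a^i) (u a^k) = |p - i| + |v| + |k - q|` and `pd (u a^k) (u a^l) = 0`.  `dc` and the last statement:
exponent sum of `b`. -/
def S_base : Prop := ∃ W : WNorm F2, Good W xa xb 1 1 ∧
  ∀ (B : ℕ) (i j k : ℤ), Sd B xb (xa ^ i) (xa ^ j) (xa ^ k) ≠ 1

/-- S2 (the relators are conjugate to words of the form of `S_step`, with a short part `h`). -/
def S_form : Prop := ∀ {Γ : Type} [Group Γ] {W : WNorm Γ} {a b : Γ} (B : ℕ) (ee : ℕ → ℕ), 1 ≤ B →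
  (∀ k : ℤ, (W.ℓ (a ^ k) : ℤ) = |k|) → W.ℓ b = 1 → ∀ m : ℕ,
  ∃ (κ : ℕ) (h w : Γ), (κ = 1 ∨ κ = 2) ∧ (κ = 2 → m % 2 = 0) ∧
    rel B ee a b m = w * (blk (b ^ κ) (a ^ ee m) B * h) * w⁻¹ ∧
    (W.ℓ h : ℝ) ≤ 10 * B ^ 2 * (m + 2) ^ 2

/-- S3 (quotient of a quotient).  `(F/K)/(K'/K) ≃ F/K'`, isometrically.  (See the transport lemmas of
`Pool/Agent/H216/AN/F5.lean`.) -/
def S_tr : Prop := ∀ {F : Type} [Group F] (W : WNorm F) (a b : F) (K K' : Subgroup F) [K.Normal]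
  [K'.Normal] [(K'.map (QuotientGroup.mk' K)).Normal], K ≤ K' →
  ∀ (V : WNorm (F ⧸ K)) (V' : WNorm (F ⧸ K')), Quo W K V → Quo W K' V' →
  ∃ W'' : WNorm ((F ⧸ K) ⧸ K'.map (QuotientGroup.mk' K)),
    Quo V (K'.map (QuotientGroup.mk' K)) W'' ∧
    ∀ δ D : ℝ, Good W'' (((a : F ⧸ K) : (F ⧸ K) ⧸ K'.map (QuotientGroup.mk' K)))
        (((b : F ⧸ K) : (F ⧸ K) ⧸ K'.map (QuotientGroup.mk' K))) δ D →
      Good V' (a : F ⧸ K') (b : F ⧸ K') δ D

/-- S4 (iteration).  Induction on `m`: `S_step` for `F/KK m`, with `E = ee m`, `κ`, `h` of S2,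
`R = 10 B^2 (m+2)^2`; the growth condition gives `10^8 B (D + R) ≤ E`.  The image of `KK (m+1)` in
`F/KK m` is the normal closure of the image of `rel m` (S3).  The second statement for `m + 1`: by
`S_step` either `Sd … = 1` in `F/KK m`, or `m = 2t` and `k = ee m`; since
`Sd (a^t) (a^(t^2)) (a^ee m) = 1` in `F/KK (m+1)` also `a^i b^3 a^j b^3 = a^t b^3 a^(t^2) b^3`, and
malnormality (`malalg`, `b^(-3) ∉ <a>` by `dc`) gives `j = t^2`, `i = t`. -/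
def S_iter : Prop := ∀ (B : ℕ) (ee : ℕ → ℕ), Gro B ee → ∀ W : WNorm F2, Good W xa xb 1 1 →
  (∀ (B : ℕ) (i j k : ℤ), Sd B xb (xa ^ i) (xa ^ j) (xa ^ k) ≠ 1) →
  ∀ (m : ℕ) (V : WNorm (F2 ⧸ KK B ee m)), Quo W (KK B ee m) V →
    Good V (xa : F2 ⧸ KK B ee m) (xb : F2 ⧸ KK B ee m) (dlm B ee m) (Dlm B ee m) ∧
    (∀ i j k : ℤ, Sd B xb (xa ^ i) (xa ^ j) (xa ^ k) ∈ KK B ee m →
      ∃ t : ℕ, i = t ∧ j = (t : ℤ) ^ 2) ∧
    (∀ n ∈ KK B ee (m + 1), n ∉ KK B ee m →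
      (B : ℝ) ^ 2 * ee m / 8 ≤ V.ℓ (n : F2 ⧸ KK B ee m))

/-- the properties of the limit group `F2 ⧸ KI B ee` -/
structure Lim (B : ℕ) (ee : ℕ → ℕ) (V : WNorm (F2 ⧸ KI B ee)) : Prop where
  cen : ∀ g : F2 ⧸ KI B ee, g * (xa : F2 ⧸ KI B ee) = (xa : F2 ⧸ KI B ee) * g →
    g ∈ Subgroup.zpowers (xa : F2 ⧸ KI B ee)
  pow : ∀ k : ℤ, (V.ℓ ((xa : F2 ⧸ KI B ee) ^ k) : ℤ) = |k|
  lb : V.ℓ (xb : F2 ⧸ KI B ee) = 1
  gen : ∀ g, V.ℓ g = 1 → g = (xa : F2 ⧸ KI B ee) ∨ g = (xa : F2 ⧸ KI B ee)⁻¹ ∨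
    g = (xb : F2 ⧸ KI B ee) ∨ g = (xb : F2 ⧸ KI B ee)⁻¹
  bn : (xb : F2 ⧸ KI B ee) ∉ Subgroup.zpowers (xa : F2 ⧸ KI B ee)
  tf : ∀ (g : F2 ⧸ KI B ee) (n : ℕ), 0 < n → g ^ n = 1 → g = 1
  sq : ∀ i j k : ℤ, Sd B (xb : F2 ⧸ KI B ee) ((xa : F2 ⧸ KI B ee) ^ i)
    ((xa : F2 ⧸ KI B ee) ^ j) ((xa : F2 ⧸ KI B ee) ^ k) = 1 → ∃ t : ℕ, i = t ∧ j = (t : ℤ) ^ 2
  four : ∀ m : ℕ, ∀ x y z w : Pt V, dist (pt V 1) x ≤ (B : ℝ) ^ 2 * ee m / 100 →
    dist (pt V 1) y ≤ (B : ℝ) ^ 2 * ee m / 100 → dist (pt V 1) z ≤ (B : ℝ) ^ 2 * ee m / 100 →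
    dist (pt V 1) w ≤ (B : ℝ) ^ 2 * ee m / 100 →
    dist x y + dist z w ≤ max (dist x z + dist y w) (dist x w + dist y z) + 2 * dlm B ee m

/-- S5 (the limit).  `KI = ⋃ KK m` (directed), so every element of `KI` is in some `KK m`.
`cen`, `tf`, `sq`, `bn`: a relation of the limit holds in `F/KK m` for some `m` (`cen`: `Good.mal` and
`S_malalg`; if `g a = a g` then `g⁻¹ a g = a`).  Norms: if `n ∈ KI`, `n ∉ KK m` then
`V_m.ℓ n ≥ B^2 ee m / 8` (let `j ≥ m` be the index with `n ∈ KK (j+1)`, `n ∉ KK j`;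
`V_m.ℓ n ≥ V_j.ℓ n`).  `pow`: choose `m` with `|k| ≤ B^2 ee m / 100`.  `four`: choose lifts `x', …` to
`F/KK m` of the same norm; then `dist x' y' = dist x y`: there is `n` in the kernel of `F/KK m → F/KI`
with `dist x' (n y') = dist x y`; if `n ≠ 1` then
`B^2 ee m / 8 ≤ |y'⁻¹ n y'| ≤ dist y' x' + dist x' (n y') ≤ 4 * B^2 ee m / 100`. -/
def S_lim : Prop := ∀ (B : ℕ) (ee : ℕ → ℕ), Gro B ee →
  ∃ V : WNorm (F2 ⧸ KI B ee), Lim B ee V

/-- S6 (asymptotic cones).  `G` with the norm `V` (the word norm of the finite set `S`) satisfies the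
four point condition with error `δ n` in the ball of radius `r n`, `δ n / d n → 0`, `r n / d n → ∞`.

Proof.  Pseudometric space of the admissible sequences, `dist x y = lim_ω |x_n⁻¹ y_n| / d n` (bounded
sequences have a limit along the ultrafilter: `Ultrafilter`, compactness of `[0, C]`); `T` is its
`SeparationQuotient`.  Four point condition with error `0`: the points `x n, …` of admissible
sequences are in the ball of radius `r n` for almost all `n`; divide the inequality by `d n`.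
Geodesics between the classes of `x` and `y` (`D` their distance, `l n = |x_n⁻¹ y_n|`, `l n / d n → D`
along `ω`): `ψ t` is the class of the sequence `z n` with `|x_n⁻¹ z_n| = ⌊t / D * l n⌋` on a fixed
geodesic from `x n` to `y n` (choose for each `n` a geodesic path `c n : ℕ → G` with
`|c(i)⁻¹ c(j)| = |i - j|`, by induction from `WNorm.geod`).  Then use `isRTree_of` of the library file
`Pool/Graph/R_pool_sql_team_seeded_2aa45f1a/Q228/UR/Tree.lean` (same definition of `IsRTree`). -/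
def S_cone : Prop := ∀ {G : Type} [Group G] (V : WNorm G) (S : Set G), (∀ g, V.ℓ g = wlen S g) →
  ∀ (δ r d : ℕ → ℝ), (∀ n, 0 < d n) → Tendsto d atTop atTop →
  Tendsto (fun n => δ n / d n) atTop (𝓝 0) →
  Tendsto (fun n => r n / d n) atTop atTop →
  (∀ n, ∀ x y z w : Pt V, dist (pt V 1) x ≤ r n → dist (pt V 1) y ≤ r n →
    dist (pt V 1) z ≤ r n → dist (pt V 1) w ≤ r n →
    dist x y + dist z w ≤ max (dist x z + dist y w) (dist x w + dist y z) + 2 * δ n) →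
  ∀ ω : Ultrafilter ℕ, (ω : Filter ℕ) ≤ cofinite →
    ∃ (T : Type) (_ : MetricSpace T), IsCone S ω d T ∧ IsRTree T

/-- S7.  `S = {a, b}`: the norm `V` is the word norm of `S` (`gen`, `geod`, `pow`, `lb`), and `S`
generates.  Apply S6 with `δ m = dlm m`, `r m = B^2 ee m / 100`,
`d m = √(dlm m * B^2 * ee m)` (`ee m ≥ (m+1)^2 * …` times `ee (m-1)` by the growth condition, so that
`δ/d → 0`, `r/d → ∞`, `d → ∞`); `ω` any ultrafilter finer than the cofinite one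
(`Filter.hyperfilter`). -/
def S_lac : Prop := ∀ (B : ℕ) (ee : ℕ → ℕ), Gro B ee → ∀ V : WNorm (F2 ⧸ KI B ee), Lim B ee V →
  LacHyp (F2 ⧸ KI B ee) ∧ Group.FG (F2 ⧸ KI B ee) ∧ ¬ IsCyclic (F2 ⧸ KI B ee)

/-- S8 (quasi-finite axiomatizability), see part L. -/
def S_qfa : Prop := ∀ B : ℕ, 1 ≤ B →
  (∀ g : F2 ⧸ KI B (eeB B), g * (xa : F2 ⧸ KI B (eeB B)) = (xa : F2 ⧸ KI B (eeB B)) * g →
    g ∈ Subgroup.zpowers (xa : F2 ⧸ KI B (eeB B))) →
  (∀ k : ℤ, (xa : F2 ⧸ KI B (eeB B)) ^ k = 1 → k = 0) →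
  (∀ i j k : ℤ, Sd B (xb : F2 ⧸ KI B (eeB B)) ((xa : F2 ⧸ KI B (eeB B)) ^ i)
    ((xa : F2 ⧸ KI B (eeB B)) ^ j) ((xa : F2 ⧸ KI B (eeB B)) ^ k) = 1 →
    ∃ t : ℕ, i = t ∧ j = (t : ℤ) ^ 2) → QFA (F2 ⧸ KI B (eeB B))

/-- the final statement -/
def S_final : Prop := ∃ (G : Type) (_ : Group G), Group.FG G ∧ ¬ IsCyclic G ∧
  (∀ g : G, IsOfFinOrder g → g = 1) ∧ LacHyp G ∧ QFA G

/-- assembly -/
theorem final (h5 : S_lim) (h7 : S_lac) (h8 : S_qfa) : S_final := by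
  have hg : Gro (10 ^ 14) (eeB (10 ^ 14)) := ⟨le_rfl, le_rfl, fun m => le_rfl⟩
  obtain ⟨V, hV⟩ := h5 _ _ hg
  obtain ⟨h1, h2, h3⟩ := h7 _ _ hg V hV
  refine ⟨_, inferInstance, h2, h3, fun g hg => ?_, h1, ?_⟩
  · obtain ⟨n, hn, h⟩ := hg.exists_pow_eq_one
    exact hV.tf g n hn h
  · refine h8 _ (by norm_num) hV.cen (fun k hk => ?_) hV.sq
    have := hV.pow k
    rw [hk, V.one'] at this
    simpa using this.symm

end Pool.Agent.H343.QF
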